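import Pool.Agent.H.MP_21b43d_ag.Fin

/-!
# All stability conditions on irregular surfaces without rational curves are geometric
-/

set_option autoImplicit false

open CategoryTheory AlgebraicGeometry M21

namespace Pool.Agent.Results.MP_21b43d_ag.IrregularSurfaces

/-- Let `X` be a smooth projective surface over `ℂ` with `H¹(X, 𝒪_X) ≠ 0` which contains no rational
curve. Then all stability conditions on `X` are geometric. -/
theorem result (X : Scheme.{0}) (f : X ⟶ Spec (.of ℂ)) [IsLocallyNoetherian X]
    (hf : IsSmoothProjectiveSurface f) (hq : IrregularSurface X) (hr : NoRationalCurve f)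
    (σ : StabilityCondition f) : σ.IsGeometric :=
  geometric_of_surface f hf hq hr σ

end Pool.Agent.Results.MP_21b43d_ag.IrregularSurfaces
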