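import Pool.Agent.H.MP_21b43d_ag.Fin
import Pool.Agent.H.MP_21b43d_ag.XP.Main
import Pool.Agent.H.MP_21b43d_ag.XP.GridX
import Pool.Agent.H.MP_21b43d_ag.E3.V.FinC

/-!
# A smooth projective surface with non-finite Albanese morphism which admits stability conditions,
all of which are geometric

The surface `X` is a triple covering of `E × ℙ¹`, `E` the elliptic curve `s² = r³ + 1`, with the
equation `y³ = s (x⁶ + 1) + (x³ + 2)`. Its Albanese variety is `E`.
-/

set_option autoImplicit false

open CategoryTheory AlgebraicGeometry M21

namespace Pool.Agent.Results.MP_21b43d_ag.NonFiniteAlbanese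

/-- Let `K` be a field over `ℂ` with elements `r, x` algebraically independent over `ℂ` and
`s, y ∈ K` with `s² = r³ + 1` and `y³ = s (x⁶ + 1) + (x³ + 2)` (such fields exist). The closure `X`
in `ℙ¹³` of the point `[1 : x : x² : r : r x² : s : s x² : r² : r² x² : r s : r s x : r s x² : y : y r²]`
is a smooth projective surface whose Albanese morphism is not finite. There is a stability
condition on `X` which satisfies the support property for the full numerical Grothendieck group
(for every `G` in `D^b(X)` there is `C` with `|χ(G, E)| ≤ C |Z(E)|` for all semistable `E`), and all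
stability conditions on `X` are geometric. -/
theorem result : ∃ (K : Type) (_ : Field K) (_ : Algebra ℂ K) (q : XP.Qd K), q.Good ∧
    IsSmoothProjectiveSurface q.str ∧ AlbaneseNotFinite q.str ∧
      (∃ σ : StabilityCondition q.str, σ.FullSupport) ∧
        ∀ σ : StabilityCondition q.str, σ.IsGeometric := by
  obtain ⟨K, _, _, q, h⟩ := XP.Qd.exists_good
  obtain ⟨h1, h2, h3, h4⟩ := XP.main q h
  exact ⟨K, _, _, q, h, h1, h4, h.grid.exists_full h.grid_ai h.splitK h1,
    fun σ => geometric_of_surface q.str h1 h2 h3 σ⟩

end Pool.Agent.Results.MP_21b43d_ag.NonFiniteAlbanese
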